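import Pool.Agent.Lib.MP_28303a_al.HIG.H50.Two
import Pool.Agent.Lib.MP_28303a_al.HIG.H50.All

/-! # Negative K-groups of group rings: one finitely presented torsionfree group decides

There is a finitely presented torsionfree group `Γ` (generated by two elements) such that for
every regular ring `R` all `K_{-n}(RG)` (`G` torsionfree, `n ≥ 1`) vanish iff `K_{-1}(RΓ)` is a
finitely generated group; otherwise `K_{-1}(RΓ)` contains infinitely many independent copies of
each `K_{-1}(RG)`, `G` finitely presented and torsionfree. -/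

set_option autoImplicit false

namespace Pool.Agent.Results.MP_28303a_al.FinitelyPresented

open Pool.Agent.NegK

universe u

theorem result :
    ∃ (Γ : Type) (_ : Group Γ), Group.IsFinitelyPresented Γ ∧ TorsionFree Γ ∧
    (∃ a b : Γ, Subgroup.closure {a, b} = ⊤) ∧
    (∀ (R : Type u) [Ring R], RegularRing R →
      ((∀ (G : Type u) [Group G], TorsionFree G →
          ∀ n : ℕ, Subsingleton (KNeg (n + 1) (MonoidAlgebra R G))) ↔
        Subsingleton (KNeg 1 (MonoidAlgebra R Γ))) ∧
      (AddGroup.FG (KNeg 1 (MonoidAlgebra R Γ)) →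
        Subsingleton (KNeg 1 (MonoidAlgebra R Γ))) ∧
      (∀ (G : Type u) [Group G], Group.IsFinitelyPresented G → TorsionFree G →
        ∃ Φ : (ℕ →₀ KNeg 1 (MonoidAlgebra R G)) →+ KNeg 1 (MonoidAlgebra R Γ),
          Function.Injective Φ)) ∧
    ((∀ (R : Type u) [Ring R], RegularRing R → ∀ (G : Type u) [Group G], TorsionFree G →
        ∀ n : ℕ, Subsingleton (KNeg (n + 1) (MonoidAlgebra R G))) ↔
      (∀ (R : Type u) [Ring R], Countable R → RegularRing R →
        Subsingleton (KNeg 1 (MonoidAlgebra R Γ)))) := by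
  obtain ⟨Γ, _, hfp, htf, hgen, hk⟩ := Hig.H50.exists_fp_two.{u} Hig.H50.hig_all Hig.H64.geq
  have hp := fun (R : Type u) [Ring R] (hR : RegularRing R) =>
    Hig.H50.props Γ htf R hR (hk R hR)
  refine ⟨Γ, inferInstance, hfp, htf, hgen, fun R _ hR => hp R hR, ?_, ?_⟩
  · intro h R _ _ hR
    exact (hp R hR).1.1 (fun G _ hG n => h R hR G hG n)
  · intro h R _ hR G _ hG n
    refine all_of_one R (fun G _ hG => ?_) n G hG
    refine coeff_red R G fun F => ?_
    obtain ⟨R₀, h1, h2, h3⟩ := exists_countable_regular hR (F : Set R) F.countable_toSet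
    exact ⟨R₀, h1, (hp R₀ h3).1.2 (h R₀ h2 h3) G hG 0⟩

end Pool.Agent.Results.MP_28303a_al.FinitelyPresented
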