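import Pool.Agent.Lib.MP_28303a_al.JK.Fin
import Pool.Agent.Lib.MP_28303a_al.NT.NL.All
import Pool.Agent.Lib.MP_28303a_al.NT.NL.CsV
import Pool.Agent.Lib.MP_28303a_al.NT.NL.ExArb
import Pool.Agent.Lib.MP_28303a_al.NT.NL.ExAutV
import Pool.Agent.Lib.MP_28303a_al.NT.NL.ExAutW
import Pool.Agent.Lib.MP_28303a_al.NT.NL.ExNil
import Pool.Agent.Lib.MP_28303a_al.NT.NL.ExRam
import Pool.Agent.Lib.MP_28303a_al.NT.NL.ExRat
import Pool.Agent.Lib.MP_28303a_al.NT.NL.GeoT
import Pool.Agent.Lib.MP_28303a_al.NT.NL.Pub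
import Pool.Agent.Lib.MP_28303a_al.NT.NL.Rig
import Pool.Agent.Lib.MP_28303a_al.NT.NL.Tj
import Pool.Agent.Lib.MP_28303a_al.RK.Abl
import Pool.Agent.Lib.MP_28303a_al.RK.BurG
import Pool.Agent.Lib.MP_28303a_al.RK.BurT
import Pool.Agent.Lib.MP_28303a_al.RK.Burz
import Pool.Agent.Lib.MP_28303a_al.RK.Bvx
import Pool.Agent.Lib.MP_28303a_al.RK.Emt
import Pool.Agent.Lib.MP_28303a_al.RK.Exs
import Pool.Agent.Lib.MP_28303a_al.RK.MixV
import Pool.Agent.Lib.MP_28303a_al.RK.Mtt2V
import Pool.Agent.Lib.MP_28303a_al.RK.PosV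
import Pool.Agent.Lib.MP_28303a_al.RK.Soa

/-!
# Negative K-theory of group rings of linear groups of semisimple rank one and groups with actions
on trees

`KNeg`, `KNegFun`, `RegularRing`, `TorsionFree` are defined in
`Pool.Agent.Lib.MP_28303a_al.NK.Defs`, and `ClassN`, `PolyZ`, `VirtuallyPolyZ`, `Bounded`, `Good`,
`IsTreeAction`, `Small`, `TreeClass` in `Pool.Agent.Lib.MP_28303a_al.NT.NL.Pub`.
-/

set_option autoImplicit false

namespace Pool.Agent.Results.MP_28303a_al.LinearGroups

open Pool.Agent.NegK Pool.Agent.NegK.TreeClasses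
open scoped MatrixGroups

universe u

/-- The class of groups `𝒯`.  A group is small if every finitely generated subgroup of it has a normal
solvable subgroup of finite exponent with virtually poly-`ℤ` quotient.  `𝒯` is the smallest class of
groups which contains the small groups, the groups with a homomorphism to a group of the class whose
kernel is solvable of finite exponent, the groups all of whose finitely generated subgroups are in
the class, the finite products of groups of the class, and the groups with actions without inversions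
on finitely many trees such that the stabilizers of the tuples of vertices are in the class and the
stabilizers of a tuple of vertices and a neighbour of one of them are small. -/
abbrev InT (G : Type u) [i : Group G] : Prop := TreeClass Bounded VirtuallyPolyZ G i

/-- The homomorphism `K_{-n}(R[H]) → K_{-n}(R[Γ])` for a subgroup `H` of `Γ`. -/
noncomputable def ind (n : ℕ) (R : Type u) [Ring R] {Γ : Type u} [Group Γ] (H : Subgroup Γ) :
    KNeg n (MonoidAlgebra R H) →+ KNeg n (MonoidAlgebra R Γ) :=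
  (KNegFun n).hom (MonoidAlgebra.mapDomainRingHom R H.subtype)

/-- The negative K-groups of `R[Γ]` vanish for all regular rings `R`. -/
def NegativeVanish (Γ : Type u) [Group Γ] : Prop :=
  ∀ (R : Type u) [Ring R], RegularRing R → ∀ n : ℕ, Subsingleton (KNeg (n + 1) (MonoidAlgebra R Γ))

/-- Every conic over `ℚ` with a point over `K` has a point over `ℚ`. -/
def Conics (K : Type u) [Field K] : Prop :=
  ∀ a b c d e f : ℚ,
    (∃ x y z : K, (x ≠ 0 ∨ y ≠ 0 ∨ z ≠ 0) ∧ (a : K) * x ^ 2 + b * y ^ 2 + c * z ^ 2 +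
      d * (x * y) + e * (x * z) + f * (y * z) = 0) →
    ∃ x y z : ℚ, (x ≠ 0 ∨ y ≠ 0 ∨ z ≠ 0) ∧ a * x ^ 2 + b * y ^ 2 + c * z ^ 2 +
      d * (x * y) + e * (x * z) + f * (y * z) = 0

/-- The fields `K` of characteristic `0` whose algebraic integers are the integers, such that every
conic over `ℚ` with a point over `K` has a point over `ℚ`. -/
structure Rig (K : Type u) [Field K] : Prop where
  char : CharZero K
  int : ∀ a : K, IsIntegral ℤ a → ∃ z : ℤ, a = z
  conics : Conics K

/-- The index set for block matrices with `r` blocks, the `k`-th block of size `2 ^ d k`. -/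
abbrev Idx {r : ℕ} (d : Fin r → ℕ) : Type := Σ k : Fin r, (Fin (d k) → Fin 2)

/-- The homomorphisms `τ` and `γ` from `Γ` to `GL(L)` and `PGL₂(K)` are a pair of rank one, where
`L` is an extension of `K`: the matrices `τ g` are block triangular and the `k`-th diagonal block of
`τ g` is a scalar times the `d k`-th tensor power of a matrix over `K` which represents `γ g`.  (If
`K = L` is algebraically closed of characteristic `0` and `G` is a connected linear algebraic group
over `K` of semisimple rank at most one, then the subgroups of `G(K)` have such pairs with `τ`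
injective.) -/
def RankOne {K L : Type u} [Field K] [Field L] [Algebra K L] {r : ℕ} (d : Fin r → ℕ) {Γ : Type u}
    [Group Γ] (τ : Γ →* GL (Idx d) L) (γ : Γ →* PGL(2, K)) : Prop :=
  ∀ g, (τ g : Matrix (Idx d) (Idx d) L).BlockTriangular Sigma.fst ∧
    ∀ k, ∃ (B : GL (Fin 2) K) (c : L), Matrix.ProjGenLinGroup.mk B = γ g ∧
      ∀ i j, (τ g : Matrix (Idx d) (Idx d) L) ⟨k, i⟩ ⟨k, j⟩ =
        c * algebraMap K L (∏ t, (B : Matrix (Fin 2) (Fin 2) K) (i t) (j t))

/-- Let `G` be a group in the class `𝒯`, `K` a field as above, for example a field of rational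
functions over `ℚ`, and `L` an extension of `K`.  Let `Γ` be a group with a homomorphism `χ` to `G`
and a pair `(τ, γ)` of rank one over `L` and `K`, such that `(χ, τ, γ)` is good.  Then the negative
K-groups of `R[Γ]` vanish for all regular rings `R`. -/
def VanishingStatement : Prop :=
  (∀ (G : Type u) [Group G], InT G → ∀ (K L : Type u) [Field K] [Field L] [Algebra K L], Rig K →
    ∀ (Γ : Type u) [Group Γ] (χ : Γ →* G) (r : ℕ) (d : Fin r → ℕ) (τ : Γ →* GL (Idx d) L)
      (γ : Γ →* PGL(2, K)), RankOne d τ γ → Good (χ.prod (τ.prod γ)) → NegativeVanish Γ) ∧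
  ∀ σ : Type u, Rig (FractionRing (MvPolynomial σ ℤ))

/-- The subgroup `H` of `Γ` is finitely generated and has a homomorphism to `GL₂(ℚ̄)ʳ × PGL₂(ℚ̄)` with
the following kernel: the elements `h` such that `γ h` and the diagonal blocks of `τ h` are `1`. -/
def Algebraic {K : Type u} [Field K] {r : ℕ} (d : Fin r → ℕ) {Γ : Type u} [Group Γ]
    (τ : Γ →* GL (Idx d) K) (γ : Γ →* PGL(2, K)) (H : Subgroup Γ) : Prop :=
  H.FG ∧ ∃ ψ : H →* (Fin r → GL (Fin 2) (AlgebraicClosure ℚ)) × PGL(2, AlgebraicClosure ℚ),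
    ∀ h : H, ψ h = 1 ↔ γ h = 1 ∧ ∀ k i j, (τ h : Matrix (Idx d) (Idx d) K) ⟨k, i⟩ ⟨k, j⟩ =
      (1 : Matrix (Fin (d k) → Fin 2) (Fin (d k) → Fin 2) K) i j

/-- Let `G` be a group in the class `𝒯` and `K` any field of characteristic `0`.  Let `Γ` be a group
with a homomorphism `χ` to `G` and a pair `(τ, γ)` of rank one over `K`, such that `(χ, τ, γ)` is
good.  Then for every regular ring `R` and `i ≥ 0` the group `K_{-i}(R[Γ])` is generated by the
images of the groups `K_{-i}(R[H])`, where `H` runs through the subgroups of `Γ` as above. -/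
def ReductionStatement : Prop :=
  ∀ (G : Type u) [Group G], InT G → ∀ (K : Type u) [Field K] [CharZero K] (Γ : Type u)
    [Group Γ] (χ : Γ →* G) (r : ℕ) (d : Fin r → ℕ) (τ : Γ →* GL (Idx d) K) (γ : Γ →* PGL(2, K)),
    RankOne d τ γ → Good (χ.prod (τ.prod γ)) → ∀ (R : Type u) [Ring R], RegularRing R → ∀ i : ℕ,
      ⨆ H : {H : Subgroup Γ // Algebraic d τ γ H}, (ind i R H.1).range = ⊤

/-- Totally real fields: the fields `E` of characteristic `0` such that the complex conjugates of
every algebraic integer in `E` which is a sum of squares in `E` are nonnegative real numbers. -/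
structure TotallyReal (E : Type u) [Field E] : Prop where
  char : CharZero E
  nonneg : ∀ s : E, IsSumSq s → IsIntegral ℤ s →
    ∀ z : ℂ, Polynomial.aeval z (minpoly ℤ s) = 0 → ∃ r : ℝ, 0 ≤ r ∧ z = r

/-- The residue characteristic of the valuation `v` of `E` is zero, `a` is a unit whose residue is not
a square, and the value of `b` is not the value of a square. -/
structure Ramified {E : Type u} [Field E] {Γ₀ : Type u} [LinearOrderedCommGroupWithZero Γ₀]
    (v : Valuation E Γ₀) (a b : E) : Prop where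
  res : ∀ n : ℕ, n ≠ 0 → v (n : E) = 1
  unit : v a = 1
  sq : ∀ x : E, ¬ v (x ^ 2 - a) < 1
  ne : b ≠ 0
  odd : ∀ c : E, v (b * c ^ 2) ≠ 1

/-- The groups of the automorphisms of `A[x, y]` over `A` are in the class `𝒯`, for commutative rings
`A` of positive characteristic. -/
def AutMembers : Prop :=
  ∀ (A : Type u) [CommRing A] (N : ℕ), 0 < N → (N : A) = 0 →
    InT (MvPolynomial (Fin 2) A ≃ₐ[A] MvPolynomial (Fin 2) A)

/-- The groups of block triangular matrices with blocks of size at most two over commutative rings of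
positive characteristic are in the class `𝒯`. -/
def BlockMembers : Prop :=
  ∀ (A : Type u) [CommRing A] (N : ℕ), 0 < N → (N : A) = 0 → ∀ (n : ℕ) (b : Fin n → ℕ),
    (∀ k, (Finset.univ.filter fun i => b i = k).card ≤ 2) →
      ∀ (G : Type u) [Group G] (β : G →* GL (Fin n) A), Function.Injective β →
        (∀ g, (β g : Matrix (Fin n) (Fin n) A).BlockTriangular b) → InT G

/-- The groups with injective pairs of rank one over fields of positive characteristic are in the
class `𝒯`. -/
def RankOneMembers : Prop :=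
  ∀ (F : Type u) [Field F] (p : ℕ), 0 < p → (p : F) = 0 → ∀ (G : Type u) [Group G] (r : ℕ)
    (d : Fin r → ℕ) (τ : G →* GL (Idx d) F) (γ : G →* PGL(2, F)), RankOne d τ γ →
      Function.Injective (τ.prod γ) → InT G

/-- The groups of the invertible matrices of size two over the polynomial rings over `ℤ` are in the
class `𝒯`. -/
def PolynomialMembers : Prop := ∀ σ : Type u, InT (GL (Fin 2) (MvPolynomial σ ℤ))

/-- The groups of orthogonal matrices of size three with determinant one over totally real fields are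
in the class `𝒯`. -/
def OrthogonalMembers : Prop :=
  ∀ (E : Type u) [Field E], TotallyReal E →
    ∀ (G : Type u) [Group G] (β : G →* Matrix.SpecialLinearGroup (Fin 3) E), Function.Injective β →
      (∀ g, (β g).1.transpose * (β g).1 = 1) → InT G

/-- The groups of the units of totally definite quaternion algebras over totally real fields and of
ramified quaternion algebras are in the class `𝒯`. -/
def QuaternionMembers : Prop :=
  (∀ (E : Type u) [Field E], TotallyReal E → ∀ a b : E, a ≠ 0 → b ≠ 0 → IsSumSq (-a) →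
    IsSumSq (-b) → InT (QuaternionAlgebra E a 0 b)ˣ) ∧
  ∀ (E : Type u) [Field E] (Γ₀ : Type u) [LinearOrderedCommGroupWithZero Γ₀] (v : Valuation E Γ₀)
    (a b : E), Ramified v a b → InT (QuaternionAlgebra E a 0 b)ˣ

/-- The fields of rational functions over totally real algebraic extensions of `ℚ` are totally
real. -/
def TotallyRealFields : Prop :=
  ∀ (k : Type u) [Field k] [CharZero k] [Algebra.IsAlgebraic ℚ k],
    (∀ (φ : k →+* ℂ) (x : k), ∃ r : ℝ, φ x = r) → ∀ σ : Type u,
      TotallyReal (FractionRing (MvPolynomial σ k))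

/-- The extensions of commutative groups by locally virtually poly-`ℤ` groups are in the class
`𝒯`. -/
def ExtensionMembers : Prop :=
  ∀ (G : Type u) [Group G] (A : Type u) [CommGroup A] (f : G →* A),
    (∀ S : Subgroup f.ker, S.FG → VirtuallyPolyZ S) → InT G

/-- Groups in the class `𝒯` and totally real fields. -/
def MembersStatement : Prop :=
  AutMembers.{u} ∧ BlockMembers.{u} ∧ RankOneMembers.{u} ∧ PolynomialMembers.{u} ∧
    OrthogonalMembers.{u} ∧ QuaternionMembers.{u} ∧ TotallyRealFields.{u} ∧ ExtensionMembers.{u}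

open NT.NL

theorem RankOne.to {K L : Type u} [Field K] [Field L] [Algebra K L] {r : ℕ} {d : Fin r → ℕ}
    {Γ : Type u} [Group Γ] {τ : Γ →* GL (Idx d) L} {γ : Γ →* PGL(2, K)} (h : RankOne d τ γ) :
    RK.RankT d τ ((Matrix.ProjGenLinGroup.map (algebraMap K L)).comp γ) := by
  refine ⟨fun g => (h g).1, fun g k => ?_⟩
  obtain ⟨B, c, h1, h2⟩ := (h g).2 k
  refine ⟨Matrix.GeneralLinearGroup.map (algebraMap K L) B, c, ?_, fun i j => ?_⟩
  · rw [MonoidHom.comp_apply, ← h1, Matrix.ProjGenLinGroup.map_mk]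
  · rw [h2, map_prod]
    rfl

theorem axV : Ax.{u} CV DV NV := NT.NL.axV RK.Bvx.bvx

theorem cv_one (G : Type u) [Group G] (h : Subsingleton G) : CV G :=
  (small_cv G).1 fun S _ => ⟨⊥, inferInstance, ⟨inferInstance, 1, one_pos, fun g =>
    Subsingleton.elim _ _⟩, ⟨⊥, ⟨by
      rw [Subgroup.index_bot]
      exact (Nat.card_pos (α := S ⧸ (⊥ : Subgroup S))).ne'⟩, PolyZ.triv _ inferInstance⟩⟩

theorem cv_of_lvp (G : Type u) [Group G] (hG : LVP G) : CV G := by
  intro S hS
  obtain ⟨H, n, h1, h2⟩ := hG S hS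
  exact ⟨S, inferInstance, n, MonoidHom.id S, ⟨H, h1, h2⟩, 0,
    ⟨fun x y => Subtype.ext (x.2.trans y.2.symm)⟩⟩

theorem InT.t1 {G : Type u} [Group G] (h : InT G) : T1x CV DV G :=
  X5.t1_of_one axV (clsxA CV DV NV axV G _ (class_cv.1 h) PUnit (X5.t1_punit refA axV))

theorem vanishing : VanishingStatement.{u} := by
  refine ⟨?_, fun σ => ?_⟩
  · intro G _ hG K L _ _ _ hK Γ _ χ r d τ γ hR hχ
    obtain ⟨X, _, δ, n, hV⟩ := hχ.vk
    let T : Subgroup (GL (Idx d) L × PGL(2, K)) := (τ.prod γ).range
    let τT : T →* GL (Idx d) L := (MonoidHom.fst _ _).comp T.subtype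
    let γT : T →* PGL(2, K) := (MonoidHom.snd _ _).comp T.subtype
    have hR' : RankOne d τT γT := by
      rintro ⟨_, g, rfl⟩
      exact hR g
    have h1 : T1x CV DV T := rigV axV (tjx refA egsxA egfxA mrk) (RK.mixV_of RK.mtt_twoV)
      RK.Bvx.bvx ⟨hK.char, hK.int, hK.conics⟩ (algebraMap K L) τT γT hR'.to
      fun g h1 h2 => Subtype.ext (Prod.ext h1 h2)
    have h2 : T1x CV DV (G × T) := clsxA CV DV NV axV G _ (class_cv.1 hG) T h1
    intro R _ hR n
    refine X5.kneg_t1 knz axV cv_one h2 (χ.prod (τ.prod γ).rangeRestrict) ⟨X, inferInstance, δ, _,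
      hV.mono (fun g hg => ?_) fun g hg => ?_⟩ R hR n
    · exact Prod.ext (congrArg (fun x => x.1) hg) (Subtype.ext (congrArg (fun x => x.2) hg))
    · exact Prod.ext (congrArg (fun x => x.1) hg) (congrArg (fun x => x.2.1) hg)
  · have h := NT.H70.rig_ratFunc σ (FractionRing (MvPolynomial σ ℤ))
    exact ⟨h.char, h.int, h.conics⟩

theorem reduction : ReductionStatement.{u} := by
  intro G _ hG K _ _ Γ _ χ r d τ γ hR1 hχ R _ hR i
  have hR2 : RK.RankT d τ ((Matrix.ProjGenLinGroup.map (RingHom.id K)).comp γ) := by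
    refine ⟨fun g => (hR1 g).1, fun g k => ?_⟩
    obtain ⟨B', c, h1, h2⟩ := (hR1 g).2 k
    refine ⟨B', c, ?_, h2⟩
    rw [MonoidHom.comp_apply, ← h1, Matrix.ProjGenLinGroup.map_mk]
    rfl
  rw [eq_top_iff, ← X5.geoT axV egsxA mrk hG.t1 (RingHom.id K) χ τ γ hR2 hχ.vk R hR i]
  exact iSup_le fun H => le_iSup (fun H : {H : Subgroup Γ // Algebraic d τ γ H} =>
    (ind i R H.1).range) ⟨H.1, H.2.1, RK.emt_sub d τ γ (fun g => (hR1 g).1)
      (fun g k => (hR1 g).2 k) H.1 H.2.1 fun g hg B hB => H.2.2 g hg B hB⟩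

theorem InT.arb {G : Type u} [Group G] (h : RK.Arb G) (h' : RK.Bur G) : InT G :=
  class_cv.2 (clx_arbV G h h')

theorem inT_aut (F : Type u) [Field F] {N : ℕ} (hN0 : 0 < N) (hN : (N : F) = 0) :
    Clx CV NV (AutR F) inferInstance :=
  clx_inj axV.N_one (JK.tameEquiv F).toMonoidHom (JK.tameEquiv F).injective
    (clx_tame_cv hN0 hN (clx_arbV _ (RK.arb_gl F N hN0 hN) (RK.bur_gl2 F N hN0 hN)))

theorem members : MembersStatement.{u} := by
  refine ⟨fun A _ N hN0 hN => class_cv.2 (clx_autRV axV hN0 (fun F _ h => inT_aut F hN0 h) hN),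
    fun A _ N hN0 hN n b hb G _ β hβ h => .arb (RK.arb_tri A N hN0 hN b hb G β hβ h)
      (RK.bur_tri A N hN0 hN b hb G β hβ h), fun F _ p hp hpF G _ r d τ γ hR hi => ?_,
    fun σ => ?_, fun E _ hE' G _ β hβ h => ?_, ⟨fun E _ hE' a b ha hb ha' hb' => ?_,
      fun E _ Γ₀ _ v a b h =>
        class_cv.2 (clx_ram axV.C_inj cv_of_lvp ⟨h.res, h.unit, h.sq, h.ne, h.odd⟩)⟩,
    fun k _ _ _ h σ => ?_,
    fun G _ A _ f h => class_cv.2 (clx_ab axV.C_inj cv_of_lvp f fun S hS => ?_)⟩
  · have hi' : ∀ g, τ g = 1 → γ g = 1 → g = 1 := fun g h1 h2 =>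
      hi ((Prod.ext h1 h2).trans (map_one (τ.prod γ)).symm)
    exact .arb (RK.arb_rk p hp hpF d τ (fun g => (hR g).1) γ (fun g k => (hR g).2 k) hi')
      (RK.bur_rk p hp hpF d τ (fun g => (hR g).1) γ (fun g k => (hR g).2 k) hi')
  · let K := FractionRing (MvPolynomial σ ℤ)
    let e : MvPolynomial σ ℤ →+* EPG.primRing σ K :=
      (algebraMap (MvPolynomial σ ℤ) K).codRestrict (EPG.primRing σ K)
        fun f => ⟨f, 1, EPG.Primitive.one, by rw [map_one, mul_one]⟩
    have he : Function.Injective e := fun x y hxy =>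
      EPG.am_inj σ K (congrArg (fun z : EPG.primRing σ K => (z : K)) hxy)
    refine class_cv.2 (EPG.clx_rat σ K (N := NV) cv_of_lvp (Matrix.GeneralLinearGroup.map e)
      fun g h hgh => Units.ext (Matrix.ext fun i j => he ?_))
    exact congrArg (fun z : GL (Fin 2) (EPG.primRing σ K) => z.1 i j) hgh
  · have hE : RK.TotReal E := ⟨hE'.char, hE'.nonneg⟩
    exact .arb (RK.Soa.arb_so3 hE β h hβ) (RK.bur_so3 hE β h hβ)
  · have hE : RK.TotReal E := ⟨hE'.char, hE'.nonneg⟩
    exact .arb (RK.arb_quat hE ha hb ha' hb' (RK.arb_comm _)) (RK.bur_quat hE ha hb ha' hb')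
  · have hE : RK.TotReal (FractionRing (MvPolynomial σ k)) := RK.tot_ratFunc h
    exact ⟨hE.char, hE.nonneg⟩
  · obtain ⟨n, H, h1, h2⟩ := (h S hS).vz
    exact ⟨H, n, h1, h2⟩

/-- Linear groups of semisimple rank one and groups in the class `𝒯`; see the definitions. -/
theorem result : VanishingStatement.{u} ∧ ReductionStatement.{u} ∧ MembersStatement.{u} :=
  ⟨vanishing, reduction, members⟩

end Pool.Agent.Results.MP_28303a_al.LinearGroups
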