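import Pool.Agent.Lib.MP_28303a_al.NT.NL.All
import Pool.Agent.Lib.MP_28303a_al.NT.NL.ExArb
import Pool.Agent.Lib.MP_28303a_al.NT.NL.ExAutZ
import Pool.Agent.Lib.MP_28303a_al.NT.NL.ExRamZ
import Pool.Agent.Lib.MP_28303a_al.NT.NL.Gnx
import Pool.Agent.Lib.MP_28303a_al.NT.NL.K0z
import Pool.Agent.Lib.MP_28303a_al.PL.All
import Pool.Agent.Lib.MP_28303a_al.PL.Asr
import Pool.Agent.Lib.MP_28303a_al.PL.AuP
import Pool.Agent.Lib.MP_28303a_al.PL.Fvf
import Pool.Agent.Lib.MP_28303a_al.PL.PGI
import Pool.Agent.Lib.MP_28303a_al.PL.RGA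
import Pool.Agent.Lib.MP_28303a_al.RK.Exs
import Pool.Agent.Lib.MP_28303a_al.RK.Soa

/-!
# Negative K-theory of group rings of groups of automorphisms of the affine plane

`K0`, `K0.map`, `KNeg`, `KNegFun`, `RegularRing`, `TorsionFree` are defined in
`Pool.Agent.Lib.MP_28303a_al.NK.Defs`.
-/

set_option autoImplicit false

namespace Pool.Agent.Results.MP_28303a_al.PlaneAutomorphisms

open Pool.Agent.NegK
open scoped MatrixGroups

universe u

/-- The homomorphism `K_{-n}(R[H]) → K_{-n}(R[Γ])` for a subgroup `H` of `Γ`. -/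
noncomputable def ind (n : ℕ) (R : Type u) [Ring R] {Γ : Type u} [Group Γ] (H : Subgroup Γ) :
    KNeg n (MonoidAlgebra R H) →+ KNeg n (MonoidAlgebra R Γ) :=
  (KNegFun n).hom (MonoidAlgebra.mapDomainRingHom R H.subtype)

/-- The negative K-groups of `R[Γ]` vanish for all regular rings `R`. -/
def NegativeVanish (Γ : Type u) [Group Γ] : Prop :=
  ∀ (R : Type u) [Ring R], RegularRing R → ∀ n : ℕ, Subsingleton (KNeg (n + 1) (MonoidAlgebra R Γ))

/-- The homomorphism `K₀(R) → K₀(R[Γ])` is bijective for all regular rings `R`. -/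
def ZeroBijective (Γ : Type u) [Group Γ] : Prop :=
  ∀ (R : Type u) [Ring R], RegularRing R → Function.Bijective
    (K0.map (MonoidAlgebra.singleOneRingHom : R →+* MonoidAlgebra R Γ))

/-- The group of the automorphisms of the polynomial ring `A[x, y]`, that is, of the polynomial
automorphisms of the affine plane over the commutative ring `A`. -/
def Aut (A : Type u) [CommRing A] : Type u := MvPolynomial (Fin 2) A ≃ₐ[A] MvPolynomial (Fin 2) A

noncomputable instance (A : Type u) [CommRing A] : Group (Aut A) := AlgEquiv.aut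

/-- Torsionfree groups `Γ` with an injective homomorphism to the group `Aut K` of the polynomial
automorphisms of the affine plane over `K` or to `PGL₂(K)`. -/
def Plane (K : Type u) [Field K] (Γ : Type u) [Group Γ] : Prop :=
  TorsionFree Γ ∧ ((∃ χ : Γ →* Aut K, Function.Injective χ) ∨
    ∃ χ : Γ →* PGL(2, K), Function.Injective χ)

/-- Every conic over `ℚ` with a point over `K` has a point over `ℚ`. -/
def Conics (K : Type u) [Field K] : Prop :=
  ∀ a b c d e f : ℚ,
    (∃ x y z : K, (x ≠ 0 ∨ y ≠ 0 ∨ z ≠ 0) ∧ (a : K) * x ^ 2 + b * y ^ 2 + c * z ^ 2 +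
      d * (x * y) + e * (x * z) + f * (y * z) = 0) →
    ∃ x y z : ℚ, (x ≠ 0 ∨ y ≠ 0 ∨ z ≠ 0) ∧ a * x ^ 2 + b * y ^ 2 + c * z ^ 2 +
      d * (x * y) + e * (x * z) + f * (y * z) = 0

/-- The fields `K` of characteristic `0` whose algebraic integers are the integers, such that every
conic over `ℚ` with a point over `K` has a point over `ℚ`. -/
structure Rig (K : Type u) [Field K] : Prop where
  char : CharZero K
  int : ∀ a : K, IsIntegral ℤ a → ∃ z : ℤ, a = z
  conics : Conics K

/-- The group `H` is finitely generated and has a homomorphism to `GL₃(ℚ̄)` with a commutative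
kernel. -/
def Algebraic (H : Type u) [Group H] : Prop :=
  Group.FG H ∧ ∃ ψ : H →* GL (Fin 3) (AlgebraicClosure ℚ), ∀ x y, ψ x = 1 → ψ y = 1 → x * y = y * x

/-- Totally real fields: the fields `E` of characteristic `0` such that the complex conjugates of
every algebraic integer in `E` which is a sum of squares in `E` are nonnegative real numbers. -/
structure TotallyReal (E : Type u) [Field E] : Prop where
  char : CharZero E
  nonneg : ∀ s : E, IsSumSq s → IsIntegral ℤ s →
    ∀ z : ℂ, Polynomial.aeval z (minpoly ℤ s) = 0 → ∃ r : ℝ, 0 ≤ r ∧ z = r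

/-- The residue field of the valuation `v` has characteristic zero, `a` is a unit whose residue is not
a square, and the value of `b` is not the value of a square.  (If `v` is a discrete valuation with
residue characteristic zero then every quaternion algebra over `K` with nonzero residue at `v` is
isomorphic to `(a, b)` for such `a` and `b`.) -/
structure Ramified {K : Type u} [Field K] {Γ₀ : Type u} [LinearOrderedCommGroupWithZero Γ₀]
    (v : Valuation K Γ₀) (a b : K) : Prop where
  residue_char : ∀ n : ℕ, n ≠ 0 → v (n : K) = 1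
  unit : v a = 1
  not_square : ∀ x : K, ¬ v (x ^ 2 - a) < 1
  ne_zero : b ≠ 0
  odd : ∀ c : K, v (b * c ^ 2) ≠ 1

/-- The groups with an injective homomorphism to one of the following groups: the group `Aut A` of the
polynomial automorphisms of the affine plane over `A` or the group of the invertible block triangular
matrices over `A` with given blocks of size at most two, where `A` is a commutative ring of positive
characteristic; the group `PGL₂(F)`, where `F` is a field of positive characteristic; the group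
`SO₃(E)`, where `E` is a totally real field; the group of units of a quaternion algebra `(a, b)` over
a field `K` with a valuation as in `Ramified`. -/
def Factor (G : Type u) [Group G] : Prop :=
  (∃ (A : Type u) (_ : CommRing A) (N : ℕ) (χ : G →* Aut A), 0 < N ∧ (N : A) = 0 ∧
    Function.Injective χ) ∨
  (∃ (A : Type u) (_ : CommRing A) (N m : ℕ) (b : Fin m → ℕ) (χ : G →* GL (Fin m) A),
    0 < N ∧ (N : A) = 0 ∧ (∀ k, (Finset.univ.filter fun i => b i = k).card ≤ 2) ∧
    (∀ g, (χ g : Matrix (Fin m) (Fin m) A).BlockTriangular b) ∧ Function.Injective χ) ∨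
  (∃ (F : Type u) (_ : Field F) (p : ℕ) (χ : G →* PGL(2, F)), 0 < p ∧ (p : F) = 0 ∧
    Function.Injective χ) ∨
  (∃ (E : Type u) (_ : Field E) (χ : G →* SL(3, E)), TotallyReal E ∧
    (∀ g, (χ g : Matrix (Fin 3) (Fin 3) E).transpose * (χ g : Matrix (Fin 3) (Fin 3) E) = 1) ∧
    Function.Injective χ) ∨
  ∃ (K : Type u) (_ : Field K) (Γ₀ : Type u) (_ : LinearOrderedCommGroupWithZero Γ₀)
    (v : Valuation K Γ₀) (a b : K) (χ : G →* (QuaternionAlgebra K a 0 b)ˣ), Ramified v a b ∧
    Function.Injective χ

/-- Let `K` be any field and `Γ` a torsionfree group of automorphisms of the affine plane over `K` or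
a torsionfree subgroup of `PGL₂(K)`.  Then for all regular rings `R` and `i ≥ 0` the group
`K_{-i}(R[Γ])` is generated by the images of the groups `K_{-i}(R[H])`, where `H` runs through the
finitely generated subgroups of `Γ` with a homomorphism to `GL₃(ℚ̄)` with a commutative kernel. -/
def GenerationStatement : Prop :=
  ∀ (K : Type u) [Field K] (Γ : Type u) [Group Γ], Plane K Γ →
    ∀ (R : Type u) [Ring R], RegularRing R → ∀ i : ℕ,
      ⨆ H : {H : Subgroup Γ // Algebraic H}, (ind i R H.1).range = ⊤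

/-- The negative K-groups of `R[Γ]` vanish and `K₀(R) → K₀(R[Γ])` is bijective for all regular rings
`R` if `Γ` is a torsionfree group with an injective homomorphism to a finite product of groups as in
`Factor`; the fields of rational functions over `ℚ` are totally real.  If `K` is a field as in `Rig`,
for example a field of rational functions over `ℚ`, and `Γ` a torsionfree group of automorphisms of
the affine plane over `K` or a torsionfree subgroup of `PGL₂(K)`, then the negative K-groups of
`R[Γ]` vanish. -/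
def VanishingStatement : Prop :=
  (∀ (s : ℕ) (G : Fin s → Type u) [∀ j, Group (G j)], (∀ j, Factor (G j)) →
    ∀ (Γ : Type u) [Group Γ] (χ : Γ →* ∀ j, G j), TorsionFree Γ → Function.Injective χ →
      NegativeVanish Γ ∧ ZeroBijective Γ) ∧
  (∀ σ : Type u, TotallyReal (FractionRing (MvPolynomial σ ℚ))) ∧
  (∀ (K : Type u) [Field K], Rig K → ∀ (Γ : Type u) [Group Γ], Plane K Γ → NegativeVanish Γ) ∧
  ∀ σ : Type u, Rig (FractionRing (MvPolynomial σ ℤ))

/-- If the negative K-groups of `R[H]` vanish for the torsionfree groups `H` as above, then they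
vanish for all `Γ`; if `K₀(R) → K₀(R[H])` is bijective for these `H`, then it is bijective for all
`Γ`. -/
def ConsequenceStatement : Prop :=
  ((∀ (H : Type u) [Group H], TorsionFree H → Algebraic H → NegativeVanish H) →
    ∀ (K : Type u) [Field K] (Γ : Type u) [Group Γ], Plane K Γ → NegativeVanish Γ) ∧
  ((∀ (H : Type u) [Group H], TorsionFree H → Algebraic H → ZeroBijective H) →
    ∀ (K : Type u) [Field K] (Γ : Type u) [Group Γ], Plane K Γ → ZeroBijective Γ)

theorem gen3 (K : Type u) [Field K] (Γ : Type u) [Group Γ] (h : Plane K Γ) : PL.Gen3 Γ := by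
  rcases h with ⟨htf, ⟨χ, hχ⟩ | ⟨χ, hχ⟩⟩
  · exact PL.gen3_au K Γ htf χ hχ
  · exact PL.gen3_pgl K Γ htf χ hχ

theorem tf_sub {Γ : Type u} [Group Γ] (htf : TorsionFree Γ) (H : Subgroup Γ) : TorsionFree H :=
  fun g m hm hg => Subtype.ext (htf g.1 m hm (congrArg Subtype.val hg))

theorem generation : GenerationStatement.{u} :=
  fun K _ Γ _ h R _ hR i => PL.gen3_kneg (gen3 K Γ h) R hR i

open NT.NL in
/-- These groups are in the class. -/
theorem Factor.clx {G : Type u} [Group G] (h : Factor G) :
    Clx.{u} (fun G _ => CZ G) (fun G _ => ∀ g : G, IsOfFinOrder g) G inferInstance := by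
  rcases h with ⟨A, _, N, χ, hN, hA, hχ⟩ | ⟨A, _, N, m, b, χ, hN, hA, hb, htri, hχ⟩ |
    ⟨F, _, p, χ, hp, hpF, hχ⟩ | ⟨E, _, χ, hE, h, hχ⟩ | ⟨K, _, Γ₀, _, v, a, b, χ, h, hχ⟩
  · exact clx_inj axz.N_one χ hχ (clx_autR_cz hN hA)
  · exact clx_arbZ G (RK.arb_tri A N hN hA b hb G χ hχ htri)
  · exact clx_arbZ G ((RK.arb_pgl F p hp hpF).of_injective χ hχ)
  · exact clx_arbZ G (RK.Soa.arb_so3 ⟨hE.char, hE.nonneg⟩ χ h hχ)
  · exact clx_inj axz.N_one χ hχ (clx_ramZ ⟨h.residue_char, h.unit, h.not_square, h.ne_zero, h.odd⟩)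

open NT.NL in
theorem vanishing : VanishingStatement.{u} := by
  refine ⟨fun s G _ hG Γ _ χ htf hχ => ?_, fun σ => ?_, fun K _ hK Γ _ h => ?_, fun σ => ?_⟩
  · have h1 : Clx.{u} (fun G _ => CZ G) (fun G _ => ∀ g : G, IsOfFinOrder g) (∀ j, G j)
        inferInstance :=
      X5.cl_pi axz (cz_one) s G
        (fun j => inferInstance) fun j => (hG j).clx
    have h2 : NT.InK Γ := k0z (X5.gnm refA egsxA egfxA mrk) axz _ _ h1 Γ χ htf hχ
    exact ⟨NT.vanish (NT.inL_of_inK h2), fun R _ hR => NT.inK_bij h2 R hR⟩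
  · have h := RK.tot_ratFunc_rat σ
    exact ⟨h.char, h.nonneg⟩
  · have hK' : NT.H70.Rig K := ⟨hK.char, hK.int, hK.conics⟩
    refine NT.vanish ?_
    rcases h with ⟨htf, ⟨χ, hχ⟩ | ⟨χ, hχ⟩⟩
    · exact PL.asr (fun K _ hK S _ htf χ hχ ht hd => PL.rga PL.tfe hK S htf χ hχ ht hd) K hK' Γ htf
        χ hχ
    · exact PL.pgi (PL.pgs PL.tfe PL.fvf) K hK' Γ htf χ hχ
  · have h := NT.H70.rig_ratFunc σ (FractionRing (MvPolynomial σ ℤ))
    exact ⟨h.char, h.int, h.conics⟩

theorem consequence : ConsequenceStatement.{u} := by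
  refine ⟨fun hH K _ Γ _ h R _ hR n => ?_, fun hH K _ Γ _ h R _ hR => ?_⟩
  · exact PL.vanish_of_gen3 (gen3 K Γ h) R hR (n + 1) fun H hQ =>
      hH H (tf_sub h.1 H) hQ R hR n
  · exact NT.inK_bij (PL.inK_of_gen3 (gen3 K Γ h) fun H hQ R _ hR =>
      (hH H (tf_sub h.1 H) hQ R hR).2) R hR

/-- Groups of automorphisms of the affine plane and subgroups of `PGL₂`; see the definitions. -/
theorem result : GenerationStatement.{u} ∧ VanishingStatement.{u} ∧ ConsequenceStatement.{u} :=
  ⟨generation, vanishing, consequence⟩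

end Pool.Agent.Results.MP_28303a_al.PlaneAutomorphisms
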