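import Pool.Agent.Lib.MP_28303a_al.NT.Main
import Pool.Agent.Lib.MP_28303a_al.NT.ER71.All
import Pool.Agent.Lib.MP_28303a_al.NT.EX61.All
import Pool.Agent.Lib.MP_28303a_al.NT.NL.All
import Pool.Agent.Lib.MP_28303a_al.NT.NL.Gnx
import Pool.Agent.Lib.MP_28303a_al.NT.NL.K0z
import Pool.Agent.Lib.MP_28303a_al.NT.NL.Pub

/-!
# Negative K-theory of group rings of groups acting on products of trees

`K0`, `K0.map`, `KNeg`, `KNegFun`, `HasFPRes`, `RegularRing`, `TorsionFree` are defined in
`Pool.Agent.Lib.MP_28303a_al.NK.Defs`, and `PolyZ`, `Torsion`, `IsTreeAction`, `Small`, `TreeClass` in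
`Pool.Agent.Lib.MP_28303a_al.NT.NL.Pub`.
-/

set_option autoImplicit false

namespace Pool.Agent.Results.MP_28303a_al.ProductsOfTrees

open Pool.Agent.NegK Pool.Agent.NegK.TreeClasses

universe u

/-- The class `ℛ` of regular coherent groups: for every regular ring `R` every finitely generated
submodule of a finitely generated free `R[G]`-module has a finite resolution by finitely generated
projective modules. -/
def ClassR (G : Type u) [Group G] : Prop :=
  ∀ (R : Type u) [Ring R], RegularRing R → ∀ (n : ℕ)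
    (N : Submodule (MonoidAlgebra R G) (Fin n → MonoidAlgebra R G)), N.FG →
    ∃ d, HasFPRes (MonoidAlgebra R G) d N

/-- The homomorphism `K_{-n}(R[H]) → K_{-n}(R[Γ])` for a subgroup `H` of `Γ`. -/
noncomputable def ind (n : ℕ) (R : Type u) [Ring R] {Γ : Type u} [Group Γ] (H : Subgroup Γ) :
    KNeg n (MonoidAlgebra R H) →+ KNeg n (MonoidAlgebra R Γ) :=
  (KNegFun n).hom (MonoidAlgebra.mapDomainRingHom R H.subtype)

/-- The group `K_{-n}(R[Γ])` is generated by the images of the `K_{-n}(R[Γ_x])`, `x ∈ X`. -/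
def Generated (n : ℕ) (R : Type u) [Ring R] (Γ X : Type u) [Group Γ] [MulAction Γ X] : Prop :=
  ⨆ x : X, (ind n R (MulAction.stabilizer Γ x)).range = ⊤

open Classical in
/-- The group `K_{-n}(R[Γ])` is the direct sum of the groups `K_{-n}(R[Γ_x])`, where `x` runs
through representatives of the orbits of `Γ` on `X`. -/
def DirectSumOverOrbits (n : ℕ) (R : Type u) [Ring R] (Γ X : Type u) [Group Γ] [MulAction Γ X] :
    Prop :=
  ∀ x : MulAction.orbitRel.Quotient Γ X → X, (∀ o, Quotient.mk'' (x o) = o) →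
    Function.Bijective (DirectSum.toAddMonoid fun o : MulAction.orbitRel.Quotient Γ X =>
      ind n R (MulAction.stabilizer Γ (x o)))

/-- The homomorphisms from `K_{-n}(R[H])` to the abelian group `G`. -/
def Homs (n : ℕ) (R : Type u) [Ring R] (H : Type u) [Group H] (G : Type u) [AddCommGroup G] :
    Type u :=
  KNeg n (MonoidAlgebra R H) →+ G

/-- The composition of a homomorphism `K_{-n}(R[H']) → G` with the homomorphism
`K_{-n}(R[H]) → K_{-n}(R[H'])` of `c : H → H'`. -/
noncomputable def Homs.res {n : ℕ} {R : Type u} [Ring R] {H H' : Type u} [Group H] [Group H']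
    {G : Type u} [AddCommGroup G] (f : Homs n R H' G) (c : H →* H') : Homs n R H G :=
  AddMonoidHom.comp f ((KNegFun n).hom (MonoidAlgebra.mapDomainRingHom R c))

/-- A family of homomorphisms `K_{-n}(R[Γ_v]) → G`, `v` a vertex, is compatible with the conjugations
`Γ_v → Γ_w`, `h ↦ g h g⁻¹`, for all `g` in `Γ` and `w = g v`. -/
def ConjCompatible {n : ℕ} {R : Type u} [Ring R] {Γ : Type u} [Group Γ] {V : Type u}
    [MulAction Γ V] {G : Type u} [AddCommGroup G]
    (φ : ∀ v : V, Homs n R (MulAction.stabilizer Γ v) G) : Prop :=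
  ∀ (g : Γ) (v w : V) (c : MulAction.stabilizer Γ v →* MulAction.stabilizer Γ w), w = g • v →
    (∀ h, (c h : Γ) = g * h * g⁻¹) → (φ w).res c = φ v

/-- A family of homomorphisms `K_{-n}(R[Γ_v]) → G`, `v` a vertex, is compatible with the edges of
`T`: for adjacent `v`, `w` the restrictions to `K_{-n}(R[Γ_v ∩ Γ_w])` agree. -/
def EdgeCompatible {n : ℕ} {R : Type u} [Ring R] {Γ : Type u} [Group Γ] {V : Type u}
    [MulAction Γ V] (T : SimpleGraph V) {G : Type u} [AddCommGroup G]
    (φ : ∀ v : V, Homs n R (MulAction.stabilizer Γ v) G) : Prop :=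
  ∀ v w, T.Adj v w →
    (φ v).res (Subgroup.inclusion (inf_le_left (b := MulAction.stabilizer Γ w))) =
      (φ w).res (Subgroup.inclusion (inf_le_right (a := MulAction.stabilizer Γ v)))

/-- The group `K_{-n}(R[Γ])` is the cokernel of the difference of the two maps from the sum of the
groups `K_{-n}(R[Γ_e])`, `e` an edge of `T`, to the sum of the groups `K_{-n}(R[Γ_v])`, `v` a vertex,
modulo the action of `Γ`: every family of homomorphisms `φ v : K_{-n}(R[Γ_v]) → G` to an abelian
group which is compatible with the conjugations by elements of `Γ` and with the edges comes from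
exactly one homomorphism `K_{-n}(R[Γ]) → G`. -/
def Cokernel (n : ℕ) (R : Type u) [Ring R] (Γ : Type u) [Group Γ] {V : Type u} [MulAction Γ V]
    (T : SimpleGraph V) : Prop :=
  ∀ (G : Type u) [AddCommGroup G] (φ : ∀ v : V, Homs n R (MulAction.stabilizer Γ v) G),
    ConjCompatible φ → EdgeCompatible T φ →
    ∃! Ψ : Homs n R Γ G, ∀ v, Ψ.res (MulAction.stabilizer Γ v).subtype = φ v

/-- The negative K-groups of `R[Γ]` vanish for all regular rings `R`. -/
def NegativeVanish (Γ : Type u) [Group Γ] : Prop :=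
  ∀ (R : Type u) [Ring R], RegularRing R → ∀ n : ℕ, Subsingleton (KNeg (n + 1) (MonoidAlgebra R Γ))

/-- The homomorphism `K₀(R) → K₀(R[Γ])` is bijective for all regular rings `R`. -/
def ZeroBij (Γ : Type u) [Group Γ] : Prop :=
  ∀ (R : Type u) [Ring R], RegularRing R → Function.Bijective
    (K0.map (MonoidAlgebra.singleOneRingHom : R →+* MonoidAlgebra R Γ))

/-- Let `Γ` act without inversions on the trees `T 0, ..., T (m - 1)`, and let `I` be a set of
indices such that for all `i ∈ I` the intersections of the stabilizers of an edge of `T i` and of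
vertices of all other trees are in `ℛ`.  Let `X` be the product of the sets of vertices of the trees
`T i`, `i ∈ I`, and `R` a regular ring.  Then
* for `n ≥ 0` the group `K_{-n}(R[Γ])` is generated by the images of the groups `K_{-n}(R[Γ_x])`,
  `x ∈ X`,
* for `n ≥ 1` it is their direct sum over the orbits of `Γ` on `X`,
* for `n ≥ 0` and `i ∈ I` it is the cokernel of the difference of the two maps from the sum of the
  groups `K_{-n}(R[Γ_e])` to the sum of the groups `K_{-n}(R[Γ_v])`, `e` and `v` the edges and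
  vertices of `T i` modulo `Γ`.
So all negative K-groups of `R[Γ]` vanish if the stabilizers of all vertices of the product
`T 0 × ... × T (m - 1)` are in `ℛ`. -/
def TreesStatement : Prop :=
  ∀ (Γ : Type u) [Group Γ] (m : ℕ) (V : Fin m → Type u) [∀ i, MulAction Γ (V i)]
    (T : ∀ i, SimpleGraph (V i)), (∀ i, IsTreeAction Γ (T i)) →
    (∀ I : Finset (Fin m),
      (∀ i ∈ I, ∀ (v : ∀ i, V i) (w : V i), (T i).Adj (v i) w →
        ClassR (MulAction.stabilizer Γ v ⊓ MulAction.stabilizer Γ w : Subgroup Γ)) →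
      ∀ (R : Type u) [Ring R], RegularRing R → ∀ n : ℕ,
        Generated n R Γ (∀ i : I, V i) ∧ DirectSumOverOrbits (n + 1) R Γ (∀ i : I, V i) ∧
        ∀ i ∈ I, Cokernel n R Γ (T i)) ∧
    ((∀ v : ∀ i, V i, ClassR (MulAction.stabilizer Γ v)) → NegativeVanish Γ)

/-- Let `Γ` be a torsionfree group with an injective homomorphism to a group of the class
`TreeClass Torsion PolyZ`.  Then the homomorphism `K₀(R) → K₀(R[Γ])` is bijective and the negative
K-groups of `R[Γ]` vanish, for all regular rings `R`. -/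
def ZeroStatement : Prop :=
  ∀ (Q : Type u) (i : Group Q), TreeClass Torsion PolyZ Q i → ∀ (Γ : Type u) [Group Γ]
    (χ : Γ →* Q), TorsionFree Γ → Function.Injective χ → ZeroBij Γ ∧ NegativeVanish Γ

section

variable {Γ : Type u} [Group Γ] {m : ℕ} {V : Fin m → Type u} [∀ i, MulAction Γ (V i)]

theorem stab_univ (v : ∀ i, V i) :
    MulAction.stabilizer Γ v = ⨅ i, MulAction.stabilizer Γ (v i) := by
  ext g
  rw [Subgroup.mem_iInf, MulAction.mem_stabilizer_iff, funext_iff]
  rfl

theorem stab_I (I : Finset (Fin m)) (v : ∀ i, V i) :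
    (⨅ i ∈ I, MulAction.stabilizer Γ (v i)) =
      MulAction.stabilizer Γ (fun i : I => v i : ∀ i : I, V i) := by
  ext g
  rw [Subgroup.mem_iInf, MulAction.mem_stabilizer_iff, funext_iff]
  constructor
  · intro h i
    have h1 := h i.1
    rw [Subgroup.mem_iInf] at h1
    exact h1 i.2
  · intro h i
    rw [Subgroup.mem_iInf]
    intro hi
    exact h ⟨i, hi⟩

end

theorem Homs.congr {n : ℕ} {R : Type u} [Ring R] {H : Type u} [Group H] {G : Type u}
    [AddCommGroup G] {f g : KNeg n (MonoidAlgebra R H) →+ G} (h : (f : Homs n R H G) = g)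
    (z : KNeg n (MonoidAlgebra R H)) : f z = g z := by
  rw [show f = g from h]

theorem trees : TreesStatement.{u} := by
  intro Γ _ m V _ T hT
  let Y : NT.Trees Γ := ⟨m, V, inferInstance, T, fun i => ⟨(hT i).tree, (hT i).adj,
    (hT i).no_inversion⟩⟩
  have e : ∀ v, Y.st v = MulAction.stabilizer Γ v := fun v => (stab_univ v).symm
  refine ⟨fun I h R _ hR n => ?_, fun h => NT.vanish (NT.trees_inL Y fun v => ?_)⟩
  · have hE : NT.ER71.EdgeR Y I := by
      intro i hi v w hvw
      have h1 := h i hi v w hvw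
      rw [stab_univ] at h1
      exact h1
    refine ⟨?_, fun x hx => NT.EX61.itxS Γ Y I hE n R hR x hx, fun i hi => ?_⟩
    · rw [Generated, eq_top_iff, ← NT.ER71.knegAll Y I hE R hR n]
      refine iSup_le fun v => ?_
      have h2 : NT.ER71.stI Y I v =
          MulAction.stabilizer Γ (fun i : I => v i : ∀ i : I, V i) := stab_I I v
      rw [h2]
      exact le_iSup (fun x : ∀ i : I, V i => (ind n R (MulAction.stabilizer Γ x)).range)
        (fun i : I => v i)
    · have h3 := NT.EX61.upS Y i (fun v w hvw => hE i hi v w hvw) n R hR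
      intro G _ φ h4 h5
      obtain ⟨Ψ, h6⟩ := h3.2 G ⟨φ, fun g v w c hw hc z => Homs.congr (h4 g v w c hw hc) z⟩
        fun v w hvw z => Homs.congr (h5 v w hvw) z
      refine ⟨Ψ, fun v => AddMonoidHom.ext (h6 v), fun Ψ' h7 => ?_⟩
      let f : KNeg n (MonoidAlgebra R Γ) →+ G := Ψ'
      have h8 : (⊤ : AddSubgroup (KNeg n (MonoidAlgebra R Γ))) ≤ (f - Ψ).ker := by
        rw [← h3.1]
        refine iSup_le fun v => ?_
        rintro _ ⟨z, rfl⟩
        rw [AddMonoidHom.mem_ker, AddMonoidHom.sub_apply, sub_eq_zero]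
        exact (Homs.congr (h7 v) z).trans (h6 v z).symm
      refine AddMonoidHom.ext fun z => ?_
      have h9 := h8 (AddSubgroup.mem_top z)
      rwa [AddMonoidHom.mem_ker, AddMonoidHom.sub_apply, sub_eq_zero] at h9
  · have h1 := h v
    rw [stab_univ] at h1
    exact h1

open NT.NL

theorem zero : ZeroStatement.{u} := by
  intro Q i hQ Γ _ χ htf hχ
  have h : NT.InK Γ := k0z (X5.gnm refA egsxA egfxA mrk) axz Q i (class_cz.1 hQ) Γ χ htf hχ
  exact ⟨fun R _ hR => NT.inK_bij h R hR, NT.vanish (NT.inL_of_inK h)⟩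

/-- Groups acting on products of trees. -/
theorem result : TreesStatement.{u} ∧ ZeroStatement.{u} :=
  ⟨trees, zero⟩

end Pool.Agent.Results.MP_28303a_al.ProductsOfTrees
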